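import Mathlib
import Pool.Agent.Q264.MetaFib

/-!
# The parity index sequences of the meta-Fibonacci sequence are 2-regular

The parities of `h` in the block `[16 m, 16 m + 16)` are determined by `(h(4m), h(4m+2), h(8m))` modulo `2`, a state which
runs through a finite automaton reading the binary digits of `m`, and every such block contains exactly eight odd values.
Hence `u_i(8m + c) = 16 m + q`, where `q` is determined by `c` and the state.
-/

set_option autoImplicit false

namespace Pool.Agent.Results.MP_f90694_nt.TwoRegular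

/-- the defining conditions of the sequence: `h(n) = 1` for `n ≤ 0`, `h(1) = 1` and
`h(n) = h(n - h(n-1)) + h(n-2)` for `n > 1` -/
def IsH (h : ℤ → ℤ) : Prop :=
  (∀ n : ℤ, n ≤ 0 → h n = 1) ∧ h 1 = 1 ∧ ∀ n : ℤ, 1 < n → h n = h (n - h (n - 1)) + h (n - 2)

/-- `u_i`: the strictly increasing enumeration of the `m ∈ ℕ` with `h(m) mod 2 = i` -/
noncomputable def u (h : ℤ → ℤ) (i : ℤ) (n : ℕ) : ℤ := (Nat.nth (fun m : ℕ => h m % 2 = i) n : ℕ)

/-- `a` is `k`-regular: the `ℤ`-module generated by the `k`-kernel of `a` is finitely generated -/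
def KRegular (k : ℕ) (a : ℕ → ℤ) : Prop :=
  (Submodule.span ℤ {b : ℕ → ℤ | ∃ j c : ℕ, c < k ^ j ∧ b = fun n => a (k ^ j * n + c)}).FG

theorem pred_eq (h : ℤ → ℤ) (i : ℤ) (hi : i = 0 ∨ i = 1) :
    (fun m : ℕ => h m % 2 = i) = fun m : ℕ => ((h (m : ℤ) : ℤ) : ZMod 2) = (i : ZMod 2) := by
  funext m
  rw [ZMod.intCast_eq_intCast_iff' _ _ 2]
  rcases hi with rfl | rfl <;> norm_num

/-- **Q1**: for both `i = 0` and `i = 1` the answer is yes, with `k = 2`. -/
theorem result : (∃! h : ℤ → ℤ, IsH h) ∧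
    ∀ h : ℤ → ℤ, IsH h → ∀ i : ℤ, i = 0 ∨ i = 1 →
      {m : ℕ | h m % 2 = i}.Infinite ∧ StrictMono (u h i) ∧ Set.range (u h i) = {m : ℤ | 0 ≤ m ∧ h m % 2 = i} ∧
      KRegular 2 (u h i) := by
  refine ⟨Q264.MetaFib.existsUnique_isH, fun h hh i hi => ?_⟩
  have hinf : {m : ℕ | h m % 2 = i}.Infinite := by
    refine Set.infinite_of_not_bddAbove ?_
    rintro ⟨B, hB⟩
    have hh' : Q264.MetaFib.IsH h := hh
    rcases hi with rfl | rfl
    · have h1 := (hh'.rec (2 * B + 1)).1
      have h2 : h ((4 * B + 3 : ℕ) : ℤ) % 2 = 0 := by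
        have : ((4 * B + 3 : ℕ) : ℤ) = 2 * ((2 * B + 1 : ℕ) : ℤ) + 1 := by push_cast; ring
        rw [this, h1]
        push_cast
        omega
      have := hB (show (4 * B + 3) ∈ {m : ℕ | h m % 2 = 0} from h2)
      omega
    · have h1 := (hh'.rec (2 * B)).1
      have h2 : h ((4 * B + 1 : ℕ) : ℤ) % 2 = 1 := by
        have : ((4 * B + 1 : ℕ) : ℤ) = 2 * ((2 * B : ℕ) : ℤ) + 1 := by push_cast; ring
        rw [this, h1]
        push_cast
        omega
      have := hB (show (4 * B + 1) ∈ {m : ℕ | h m % 2 = 1} from h2)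
      omega
  refine ⟨hinf, ?_, ?_, ?_⟩
  · intro a b hab
    unfold u
    exact_mod_cast Nat.nth_strictMono hinf hab
  · ext m
    constructor
    · rintro ⟨n, rfl⟩
      have := Nat.nth_mem_of_infinite hinf n
      unfold u
      exact ⟨Int.natCast_nonneg _, this⟩
    · rintro ⟨h0, h1⟩
      obtain ⟨m', rfl⟩ := Int.eq_ofNat_of_zero_le h0
      have h2 : m' ∈ Set.range (Nat.nth (fun m : ℕ => h m % 2 = i)) := by
        rw [Nat.range_nth_of_infinite hinf]
        exact h1
      obtain ⟨n, hn⟩ := h2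
      refine ⟨n, ?_⟩
      unfold u
      rw [hn]
  · have := Q264.MetaFib.regular hh (i : ZMod 2)
    unfold u
    rw [pred_eq h i hi]
    exact this

end Pool.Agent.Results.MP_f90694_nt.TwoRegular
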